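import Pool.Agent.K3h78.HS.MfdY

/-! # A blow-up of a Hirzebruch surface with positive holomorphic sectional curvature -/

set_option autoImplicit false

open Pool.Agent.W549.CY (HermitianMetric)
open Pool.Agent.K3h78.HS

/-- There is a compact connected complex surface `X`, the blow-up at two distinct points of the
Hirzebruch surface `𝔽_0 = ℙ¹ × ℙ¹`, that carries a Kähler metric all of whose holomorphic
sectional curvatures are positive. -/
theorem Pool.Agent.Results.MP_3413ae_ag.BlownUpQuadric.result :
    ∃ (Y X : Surface) (π : X.carrier → Y.carrier) (p q : Y.carrier),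
      IsHirzebruch 0 Y ∧ p ≠ q ∧ IsBlowUp π {p, q} ∧
      ∃ h : HermitianMetric 2 X.carrier, IsKahler h ∧ HasPositiveHSC h :=
  ⟨SY, SX, πXY, pY, qY, isHirzebruch, pq_ne, isBlowUp, hX, hX_kahler, hX_pos⟩
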